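import Pool.Agent.H315R2.EB.Stubs

/-!
# COX: apartments of the lattice complex are alcove complexes (task of helper315, MP_26e62b_al)
-/

namespace Pool.Agent.H577R2.EB

open Module
open scoped Pointwise
open Pool.Agent.H315R2.EB

/-- Integer differences of the coordinates of an alcove vertex. -/
theorem exists_exp {n : ℕ} (x : AlcoveVertex n) :
    ∃ a : Fin (n + 1) → ℤ, ∀ i, x.1 i - x.1 0 = a i := by
  choose a ha using fun i => x.2.2 i 0
  exact ⟨a, ha⟩

/-- The chosen exponents. -/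
noncomputable def ex {n : ℕ} (x : AlcoveVertex n) : Fin (n + 1) → ℤ := (exists_exp x).choose

theorem ex_spec {n : ℕ} (x : AlcoveVertex n) (i : Fin (n + 1)) :
    x.1 i - x.1 0 = ex x i := (exists_exp x).choose_spec i

theorem ex_zero {n : ℕ} (x : AlcoveVertex n) : ex x 0 = 0 := by
  have h := ex_spec x 0
  rw [sub_self] at h
  exact_mod_cast h.symm

/-- A vertex is determined by its exponents. -/
theorem ex_inj {n : ℕ} {x y : AlcoveVertex n} (h : ∀ i, ex x i = ex y i) : x = y := by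
  apply Subtype.ext
  have h1 : ∀ i, x.1 i - x.1 0 = y.1 i - y.1 0 := fun i => by
    rw [ex_spec x i, ex_spec y i, h i]
  have h2 : ∑ i, (x.1 i - x.1 0) = ∑ i, (y.1 i - y.1 0) := Finset.sum_congr rfl fun i _ => h1 i
  rw [Finset.sum_sub_distrib, Finset.sum_sub_distrib, x.2.1, y.2.1] at h2
  simp only [Finset.sum_const, Finset.card_univ, Fintype.card_fin, nsmul_eq_mul] at h2
  have h3 : ((n + 1 : ℕ) : ℝ) * x.1 0 = ((n + 1 : ℕ) : ℝ) * y.1 0 := by linarith
  have h4 : ((n + 1 : ℕ) : ℝ) ≠ 0 := by positivity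
  have h5 : x.1 0 = y.1 0 := mul_left_cancel₀ h4 h3
  funext i
  have := h1 i
  linarith

/-- Every vector of integers comes, up to a constant, from a vertex. -/
theorem exists_vertex {n : ℕ} (a : Fin (n + 1) → ℤ) :
    ∃ x : AlcoveVertex n, ∀ i, ex x i = a i - a 0 := by
  have h4 : ((n + 1 : ℕ) : ℝ) ≠ 0 := by positivity
  refine ⟨⟨fun i => (a i : ℝ) - (∑ j, (a j : ℝ)) / ((n + 1 : ℕ) : ℝ), ?_, ?_⟩, ?_⟩
  · rw [Finset.sum_sub_distrib]
    simp only [Finset.sum_const, Finset.card_univ, Fintype.card_fin, nsmul_eq_mul]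
    rw [mul_div_cancel₀ _ h4, sub_self]
  · intro i j
    refine ⟨a i - a j, ?_⟩
    push_cast
    ring
  · intro i
    have h := ex_spec (n := n) ⟨fun i => (a i : ℝ) - (∑ j, (a j : ℝ)) / ((n + 1 : ℕ) : ℝ), by
      rw [Finset.sum_sub_distrib]
      simp only [Finset.sum_const, Finset.card_univ, Fintype.card_fin, nsmul_eq_mul]
      rw [mul_div_cancel₀ _ h4, sub_self], by
      intro i j
      refine ⟨a i - a j, ?_⟩
      push_cast
      ring⟩ i
    have h' : ((a i : ℝ) - (∑ j, (a j : ℝ)) / ((n + 1 : ℕ) : ℝ)) -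
        ((a 0 : ℝ) - (∑ j, (a j : ℝ)) / ((n + 1 : ℕ) : ℝ)) = ((a i - a 0 : ℤ) : ℝ) := by
      push_cast
      ring
    exact Int.cast_injective (α := ℝ) (h.symm.trans h')

theorem COX_proof (hAL : St_AL) (_hV : St_VAL) (hH : St_HOM) (hL : St_LAM) : St_COX := by
  intro O K V _ _ _ _ _ _ _ _ _ _ _ p hp n b
  obtain ⟨-, hcls, -, -⟩ := hH O K V p hp
  obtain ⟨hlat, -, hle, hsm⟩ := hL O K V p hp (Fin (n + 1)) b
  -- lattices of exponents
  let mk : (Fin (n + 1) → ℤ) → Lat O K V := fun a => ⟨Lam O p b a, hlat a⟩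
  have hmk : ∀ a, (mk a).1 = Lam O p b a := fun a => rfl
  have hinj : ∀ a a', Lam O p b a = Lam O p b a' → a = a' := by
    intro a a' h
    funext i
    exact le_antisymm ((hle a' a).1 h.ge i) ((hle a a').1 h.le i)
  have hc : ∀ a a', cls (mk a) = cls (mk a') ↔ ∃ k : ℤ, ∀ i, a' i = a i + k := by
    intro a a'
    rw [hcls]
    constructor
    · rintro ⟨k, hk⟩
      rw [hmk, hmk, hsm] at hk
      exact ⟨k, fun i => congrFun (hinj _ _ hk) i⟩
    · rintro ⟨k, hk⟩
      refine ⟨k, ?_⟩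
      rw [hmk, hmk, hsm]
      congr 1
      funext i
      exact hk i
  -- the lattices of a class
  have hrep : ∀ (L : Lat O K V) a, cls L = cls (mk a) → ∃ k : ℤ, L.1 = Lam O p b (fun i => a i + k) := by
    intro L a h
    obtain ⟨k, hk⟩ := (hcls (mk a) L).1 h.symm
    exact ⟨k, by rw [hk, hmk, hsm]⟩
  let f : AlcoveVertex n → apt O p b := fun x => ⟨cls (mk (ex x)), mk (ex x), rfl, ex x, rfl⟩
  have hf : ∀ x, (f x).1 = cls (mk (ex x)) := fun x => rfl
  have hfinj : Function.Injective f := by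
    intro x y hxy
    have h1 : cls (mk (ex x)) = cls (mk (ex y)) := congrArg Subtype.val hxy
    obtain ⟨k, hk⟩ := (hc _ _).1 h1
    have h0 := hk 0
    rw [ex_zero, ex_zero] at h0
    apply ex_inj
    intro i
    rw [hk i]
    omega
  have hfsurj : Function.Surjective f := by
    rintro ⟨v, L, hv, a, ha⟩
    obtain ⟨x, hx⟩ := exists_vertex a
    refine ⟨x, Subtype.ext ?_⟩
    have hLa : L = mk a := Subtype.ext ha
    change cls (mk (ex x)) = v
    rw [← hv, hLa, hc]
    exact ⟨a 0, fun i => by rw [hx i]; ring⟩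
  let e : AlcoveVertex n ≃ apt O p b := Equiv.ofBijective f ⟨hfinj, hfsurj⟩
  have he : ∀ x, (e x).1 = cls (mk (ex x)) := fun x => rfl
  refine ⟨⟨e.symm, ?_⟩⟩
  intro s
  rw [hAL]
  change _ ↔ (s.map (Function.Embedding.subtype (· ∈ apt O p b))) ∈ (bt O K V).faces
  change _ ↔ (_ ∧ _)
  rw [Finset.map_nonempty, Finset.map_nonempty]
  refine and_congr_right fun _ => ?_
  constructor
  · intro h L L' hLs hLs'
    rw [Finset.mem_map] at hLs hLs'
    obtain ⟨v, hv, hvL⟩ := hLs
    obtain ⟨w, hw, hwL⟩ := hLs'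
    obtain ⟨x, rfl⟩ := e.surjective v
    obtain ⟨y, rfl⟩ := e.surjective w
    have hvL' : cls L = cls (mk (ex x)) := hvL.symm
    have hwL' : cls L' = cls (mk (ex y)) := hwL.symm
    obtain ⟨k, hk⟩ := hrep L _ hvL'
    obtain ⟨l, hl⟩ := hrep L' _ hwL'
    have hx : x ∈ s.map e.symm.toEmbedding := by
      rw [Finset.mem_map]
      exact ⟨e x, hv, by simp⟩
    have hy : y ∈ s.map e.symm.toEmbedding := by
      rw [Finset.mem_map]
      exact ⟨e y, hw, by simp⟩
    rw [hk, hl, hle, hle]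
    by_contra hcon
    rw [not_or] at hcon
    obtain ⟨h1, h2⟩ := hcon
    push Not at h1 h2
    obtain ⟨i, hi⟩ := h1
    obtain ⟨j, hj⟩ := h2
    have h3 := h x hx y hy j i
    have e1 : x.1 j - x.1 i = ((ex x j - ex x i : ℤ) : ℝ) := by
      push_cast
      rw [← ex_spec x j, ← ex_spec x i]
      ring
    have e2 : y.1 j - y.1 i = ((ex y j - ex y i : ℤ) : ℝ) := by
      push_cast
      rw [← ex_spec y j, ← ex_spec y i]
      ring
    rw [e1, e2] at h3
    have h4 : (ex x j - ex x i) - (ex y j - ex y i) ≤ 1 := by exact_mod_cast h3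
    omega
  · intro h x hx y hy i j
    rw [Finset.mem_map] at hx hy
    obtain ⟨v, hv, hvx⟩ := hx
    obtain ⟨w, hw, hwy⟩ := hy
    have hvx' : v = e x := by
      rw [← hvx]; simp
    have hwy' : w = e y := by
      rw [← hwy]; simp
    have e1 : x.1 i - x.1 j = ((ex x i - ex x j : ℤ) : ℝ) := by
      push_cast
      rw [← ex_spec x i, ← ex_spec x j]
      ring
    have e2 : y.1 i - y.1 j = ((ex y i - ex y j : ℤ) : ℝ) := by
      push_cast
      rw [← ex_spec y i, ← ex_spec y j]
      ring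
    rw [e1, e2]
    have h4 : (ex x i - ex x j) - (ex y i - ex y j) ≤ 1 := by
      set q : ℤ := -(ex x j - ex y j + 1) with hq
      have hL1 : cls (mk (fun i => ex x i + q)) ∈ s.map (Function.Embedding.subtype (· ∈ apt O p b)) := by
        rw [Finset.mem_map]
        refine ⟨v, hv, ?_⟩
        rw [hvx']
        change cls (mk (ex x)) = _
        rw [hc]
        exact ⟨q, fun i => rfl⟩
      have hL2 : cls (mk (ex y)) ∈ s.map (Function.Embedding.subtype (· ∈ apt O p b)) := by
        rw [Finset.mem_map]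
        refine ⟨w, hw, ?_⟩
        rw [hwy']
        rfl
      have h5 := h _ _ hL1 hL2
      rw [hmk, hmk, hle, hle] at h5
      rcases h5 with h5 | h5
      · have := h5 j
        simp only [hq] at this
        omega
      · have := h5 i
        simp only [hq] at this
        omega
    exact_mod_cast h4

end Pool.Agent.H577R2.EB
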